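import Pool.Agent.D0H24.LY.Stm2

set_option autoImplicit false

/-!
# Layered planar graphs, module ISO: a symmetric layer can be moved to the other side
-/

namespace Pool.Agent.D0H62.LY

open Pool.Agent.D0H24.LY Pool.Agent.H207R2.BL

theorem map_sup_adj {A B : Type} (g : A → B) (G G' : SimpleGraph A) (a b : B) :
    (SimpleGraph.map g (G ⊔ G')).Adj a b ↔ (SimpleGraph.map g G).Adj a b ∨ (SimpleGraph.map g G').Adj a b := by
  simp only [SimpleGraph.map_adj', SimpleGraph.sup_adj]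
  constructor
  · rintro ⟨h, u, v, h1 | h1, h2, h3⟩
    · exact Or.inl ⟨h, u, v, h1, h2, h3⟩
    · exact Or.inr ⟨h, u, v, h1, h2, h3⟩
  · rintro (⟨h, u, v, h1, h2, h3⟩ | ⟨h, u, v, h1, h2, h3⟩)
    · exact ⟨h, u, v, Or.inl h1, h2, h3⟩
    · exact ⟨h, u, v, Or.inr h1, h2, h3⟩

theorem map_map_adj {A B C : Type} (f : A → B) (g : B → C) (G : SimpleGraph A) (a b : C) :
    (SimpleGraph.map g (SimpleGraph.map f G)).Adj a b ↔ (SimpleGraph.map (fun x => g (f x)) G).Adj a b := by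
  simp only [SimpleGraph.map_adj']
  constructor
  · rintro ⟨h, u, v, ⟨_, x, y, h1, rfl, rfl⟩, h2, h3⟩
    exact ⟨h, x, y, h1, h2, h3⟩
  · rintro ⟨h, x, y, h1, h2, h3⟩
    refine ⟨h, f x, f y, ⟨?_, x, y, h1, rfl, rfl⟩, h2, h3⟩
    intro h4
    rw [h4, h3] at h2
    exact h h2.symm

theorem map_equiv_adj {A B C : Type} (f : A → B) (e : B ≃ C) (G : SimpleGraph A) (a b : B) :
    (SimpleGraph.map (fun x => e (f x)) G).Adj (e a) (e b) ↔ (SimpleGraph.map f G).Adj a b := by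
  simp only [SimpleGraph.map_adj', ne_eq, EmbeddingLike.apply_eq_iff_eq]

/-- the bijection of the vertices -/
def mv {V U W : Type} {n : ℕ} (τ : W ≃ W) :
    (((V ⊕ (W ⊕ Fin n)) ⊕ U) ⊕ Fin n) ≃ ((V ⊕ (U ⊕ (W ⊕ Fin n))) ⊕ Fin n) where
  toFun
    | Sum.inl (Sum.inl (Sum.inl v)) => Sum.inl (Sum.inl v)
    | Sum.inl (Sum.inl (Sum.inr (Sum.inl w))) => Sum.inl (Sum.inr (Sum.inr (Sum.inl (τ w))))
    | Sum.inl (Sum.inl (Sum.inr (Sum.inr i))) => Sum.inr i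
    | Sum.inl (Sum.inr u) => Sum.inl (Sum.inr (Sum.inl u))
    | Sum.inr i => Sum.inl (Sum.inr (Sum.inr (Sum.inr i)))
  invFun
    | Sum.inl (Sum.inl v) => Sum.inl (Sum.inl (Sum.inl v))
    | Sum.inl (Sum.inr (Sum.inr (Sum.inl w))) => Sum.inl (Sum.inl (Sum.inr (Sum.inl (τ.symm w))))
    | Sum.inr i => Sum.inl (Sum.inl (Sum.inr (Sum.inr i)))
    | Sum.inl (Sum.inr (Sum.inl u)) => Sum.inl (Sum.inr u)
    | Sum.inl (Sum.inr (Sum.inr (Sum.inr i))) => Sum.inr i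
  left_inv := by rintro (((v | (w | i)) | u) | i) <;> simp
  right_inv := by rintro ((v | (u | (w | i))) | i) <;> simp

theorem exchange_surj {W : Type} {n : ℕ} (τ : W ≃ W) (u : (W ⊕ Fin n) ⊕ Fin n) :
    ∃ v, exchange τ v = u := by
  rcases u with (w | i) | i
  · exact ⟨Sum.inl (Sum.inl (τ.symm w)), by simp [exchange]⟩
  · exact ⟨Sum.inr i, rfl⟩
  · exact ⟨Sum.inl (Sum.inr i), rfl⟩

theorem t_ISO : Pool.Agent.D0H24.LY.S_ISO := by
  intro V U W n H K L hL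
  obtain ⟨τ, hτ⟩ := hL
  refine ⟨⟨mv τ, ?_⟩⟩
  intro a b
  unfold glue stack
  simp only [SimpleGraph.sup_adj, map_sup_adj, map_map_adj]
  have h1 : (SimpleGraph.map (fun x : V ⊕ Fin n => (Sum.map Sum.inl id
        (Sum.inl (Sum.map id Sum.inr x) : (V ⊕ (W ⊕ Fin n)) ⊕ Fin n) : ((V ⊕ (W ⊕ Fin n)) ⊕ U) ⊕ Fin n)) H).Adj a b ↔
      (SimpleGraph.map (Sum.map Sum.inl id : V ⊕ Fin n → (V ⊕ (U ⊕ (W ⊕ Fin n))) ⊕ Fin n) H).Adj
        (mv τ a) (mv τ b) := by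
    rw [← map_equiv_adj _ (mv τ)]
    have : (fun x : V ⊕ Fin n => mv (U := U) τ (Sum.map Sum.inl id
        (Sum.inl (Sum.map id Sum.inr x) : (V ⊕ (W ⊕ Fin n)) ⊕ Fin n))) = Sum.map Sum.inl id := by
      funext x
      rcases x with v | i <;> rfl
    rw [this]
  have h2 : (SimpleGraph.map (Sum.map Sum.inr id : U ⊕ Fin n → ((V ⊕ (W ⊕ Fin n)) ⊕ U) ⊕ Fin n) K).Adj a b ↔
      (SimpleGraph.map (fun x : U ⊕ Fin n => (Sum.map Sum.inr id
        (Sum.inl (Sum.map id Sum.inr x) : (U ⊕ (W ⊕ Fin n)) ⊕ Fin n) : (V ⊕ (U ⊕ (W ⊕ Fin n))) ⊕ Fin n)) K).Adj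
        (mv τ a) (mv τ b) := by
    rw [← map_equiv_adj _ (mv τ)]
    have : (fun x : U ⊕ Fin n => mv (V := V) τ (Sum.map Sum.inr id x)) = fun x : U ⊕ Fin n => (Sum.map Sum.inr id
        (Sum.inl (Sum.map id Sum.inr x) : (U ⊕ (W ⊕ Fin n)) ⊕ Fin n)) := by
      funext x
      rcases x with v | i <;> rfl
    rw [this]
  have h3 : (SimpleGraph.map (fun x : (W ⊕ Fin n) ⊕ Fin n => (Sum.map Sum.inl id
        (Sum.map Sum.inr id x : (V ⊕ (W ⊕ Fin n)) ⊕ Fin n) : ((V ⊕ (W ⊕ Fin n)) ⊕ U) ⊕ Fin n)) L).Adj a b ↔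
      (SimpleGraph.map (fun x : (W ⊕ Fin n) ⊕ Fin n => (Sum.map Sum.inr id
        (Sum.map Sum.inr id x : (U ⊕ (W ⊕ Fin n)) ⊕ Fin n) : (V ⊕ (U ⊕ (W ⊕ Fin n))) ⊕ Fin n)) L).Adj
        (mv τ a) (mv τ b) := by
    rw [← map_equiv_adj _ (mv τ)]
    have : (fun x : (W ⊕ Fin n) ⊕ Fin n => mv (V := V) (U := U) τ (Sum.map Sum.inl id (Sum.map Sum.inr id x))) =
        fun x : (W ⊕ Fin n) ⊕ Fin n => (Sum.map Sum.inr id
        (Sum.map Sum.inr id (exchange τ x) : (U ⊕ (W ⊕ Fin n)) ⊕ Fin n)) := by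
      funext x
      rcases x with (w | i) | i <;> rfl
    rw [this]
    simp only [SimpleGraph.map_adj']
    constructor
    · rintro ⟨h, x, y, h4, h5, h6⟩
      exact ⟨h, _, _, (hτ x y).1 h4, h5, h6⟩
    · rintro ⟨h, x, y, h4, h5, h6⟩
      obtain ⟨x, rfl⟩ := exchange_surj τ x
      obtain ⟨y, rfl⟩ := exchange_surj τ y
      exact ⟨h, x, y, (hτ x y).2 h4, h5, h6⟩
  rw [h1, h2, h3]
  tauto

end Pool.Agent.D0H62.LY
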